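import Mathlib

/-!
# MP_bb4b37_gt: the definitions used by the final statement

Hyperbolic 3-space is the Hermitian model: the vector `(a, w, b)` of `ℝ × ℂ × ℝ` stands for the
Hermitian matrix with entries `a, w, conj w, b`; the Minkowski form is `|w|² - a b`, and `H3` is the
set of vectors of square `-1` with `a > 0` (positive definite Hermitian matrices of determinant `1`).
The null vector of the ideal point `z : ℂ` is `(|z|², z, 1)`, that of `∞` is `(1, 0, 0)`.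
-/

set_option autoImplicit false

namespace Pool.Agent.BB4B37

open Complex Filter Topology Set MeasureTheory

/-- partial derivative in the real direction -/
noncomputable def px {F : Type*} [NormedAddCommGroup F] [NormedSpace ℝ F] (f : ℂ → F) (z : ℂ) : F :=
  fderiv ℝ f z 1

/-- partial derivative in the imaginary direction -/
noncomputable def py {F : Type*} [NormedAddCommGroup F] [NormedSpace ℝ F] (f : ℂ → F) (z : ℂ) : F :=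
  fderiv ℝ f z I

/-- Wirtinger derivative `∂f/∂z` -/
noncomputable def dz (f : ℂ → ℂ) (z : ℂ) : ℂ := (px f z - I * py f z) / 2

/-- Wirtinger derivative `∂f/∂z̄` -/
noncomputable def dzb (f : ℂ → ℂ) (z : ℂ) : ℂ := (px f z + I * py f z) / 2

/-- a real function seen as a complex one -/
noncomputable def cx (φ : ℂ → ℝ) : ℂ → ℂ := fun z => (φ z : ℂ)

/-- Laplacian of a real function -/
noncomputable def lap (φ : ℂ → ℝ) (z : ℂ) : ℝ := px (px φ) z + py (py φ) z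

/-- Minkowski space -/
abbrev Mink : Type := ℝ × ℂ × ℝ

/-- the Minkowski form -/
noncomputable def mip (x y : Mink) : ℝ :=
  (x.2.1 * (starRingEnd ℂ) y.2.1).re - (x.1 * y.2.2 + x.2.2 * y.1) / 2

/-- hyperbolic 3-space -/
def H3 : Set Mink := {x | mip x x = -1 ∧ 0 < x.1}

/-- null vector of an ideal point -/
noncomputable def pt (ζ : OnePoint ℂ) : Mink := ζ.elim (1, 0, 0) (fun z => (‖z‖ ^ 2, z, 1))

/-- the trace `a + b` (twice the time coordinate) -/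
def tr (x : Mink) : ℝ := x.1 + x.2.2

/-- closed round disks of the Riemann sphere: Moebius images of the closed unit disk -/
def RoundDisk (D : Set (OnePoint ℂ)) : Prop :=
  ∃ g : GL (Fin 2) ℂ, D = (fun ζ => g • ζ) '' ((fun z : ℂ => (z : OnePoint ℂ)) '' Metric.closedBall 0 1)

/-- circle domains: open, connected, complement nonempty, each component of the complement is a
point or a closed round disk -/
def IsCircleDomain (Γ : Set (OnePoint ℂ)) : Prop :=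
  IsOpen Γ ∧ IsConnected Γ ∧ (Γᶜ).Nonempty ∧
    ∀ ζ ∈ Γᶜ, connectedComponentIn Γᶜ ζ = {ζ} ∨ RoundDisk (connectedComponentIn Γᶜ ζ)

/-- `Γ₂` is the image of `Γ₁` under a Moebius or an anti-Moebius map -/
def MoebEquiv (Γ₁ Γ₂ : Set (OnePoint ℂ)) : Prop :=
  ∃ g : GL (Fin 2) ℂ, Γ₂ = (fun ζ => g • ζ) '' Γ₁ ∨
    Γ₂ = (fun ζ => g • OnePoint.map (starRingEnd ℂ) ζ) '' Γ₁

/-- the Riemannian metric `g z v` (square of the length of the vector `v` at `z`) on the open set `U`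
of the plane has Gaussian curvature `k`, by Cartan's structure equations: locally it is `|θ|²` for
the complex coframe `θ = a dz + b dz̄` and there is a real 1-form `ω = p dz + conj p dz̄` with
`dθ = i ω ∧ θ` and `dω = k (i/2) θ ∧ conj θ`. -/
def HasCurv (k : ℝ) (U : Set ℂ) (g : ℂ → ℂ → ℝ) : Prop :=
  ∀ z₀ ∈ U, ∃ a b p : ℂ → ℂ, ContDiffAt ℝ 1 a z₀ ∧ ContDiffAt ℝ 1 b z₀ ∧ ContDiffAt ℝ 1 p z₀ ∧
    ∀ᶠ z in 𝓝 z₀, (∀ v, g z v = ‖a z * v + b z * (starRingEnd ℂ) v‖ ^ 2) ∧ ‖b z‖ < ‖a z‖ ∧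
      dz b z - dzb a z = I * (p z * b z - (starRingEnd ℂ) (p z) * a z) ∧
      dz (fun w => (starRingEnd ℂ) (p w)) z - dzb p z =
        (k : ℂ) * (I / 2) * ((‖a z‖ : ℂ) ^ 2 - (‖b z‖ : ℂ) ^ 2)

/-- `C` is the convex domain `C_K(Γ)` (for a domain `Γ` of the sphere that does not contain `∞`) and
`X`, `N` parametrise its boundary surface and its exterior unit normal. -/
structure KDomain (K : ℝ) (Γ : Set (OnePoint ℂ)) (C : Set Mink) (X N : ℂ → Mink) : Prop where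
  infty : OnePoint.infty ∉ Γ
  sub : C ⊆ H3
  closed : IsClosed C
  conv : ∀ x ∈ C, ∀ y ∈ C, ∀ a b : ℝ, 0 ≤ a → 0 ≤ b → a • x + b • y ∈ H3 → a • x + b • y ∈ C
  hull : ∀ x ∈ H3, (∀ n : Mink, mip n n = 1 → (∀ ζ ∈ Γᶜ, mip (pt ζ) n ≤ 0) → mip x n ≤ 0) → x ∈ C
  smoothX : ContDiffOn ℝ 4 X {z : ℂ | (z : OnePoint ℂ) ∈ Γ}
  smoothN : ContDiffOn ℝ 4 N {z : ℂ | (z : OnePoint ℂ) ∈ Γ}
  homeo : IsEmbedding (fun z : {z : ℂ // (z : OnePoint ℂ) ∈ Γ} => X z)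
  image : X '' {z : ℂ | (z : OnePoint ℂ) ∈ Γ} = {x ∈ C | x ∈ closure (H3 \ C)}
  immersion : ∀ z : ℂ, (z : OnePoint ℂ) ∈ Γ → ∀ v : ℂ, v ≠ 0 →
    0 < mip (fderiv ℝ X z v) (fderiv ℝ X z v)
  normal : ∀ z : ℂ, (z : OnePoint ℂ) ∈ Γ → mip (N z) (N z) = 1 ∧ mip (X z) (N z) = 0 ∧
    (∀ v : ℂ, mip (fderiv ℝ X z v) (N z) = 0) ∧ ∀ Y ∈ C, mip Y (N z) ≤ 0
  ideal : ∀ ζ : OnePoint ℂ, ζ ∈ frontier Γ ↔ ∃ x : ℕ → Mink,
    (∀ n, x n ∈ C ∧ x n ∈ closure (H3 \ C)) ∧ Tendsto (fun n => tr (x n)) atTop atTop ∧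
      Tendsto (fun n => (tr (x n))⁻¹ • x n) atTop (𝓝 ((tr (pt ζ))⁻¹ • pt ζ))
  curv : HasCurv K {z : ℂ | (z : OnePoint ℂ) ∈ Γ}
    (fun z v => mip (fderiv ℝ X z v) (fderiv ℝ X z v))

/-- The surface `(Ω, e^{2χ}|dz|²)` is isometric, by an orientation preserving diffeomorphism `j`, to
the boundary surface `S_K(Γ)` with its third fundamental form `⟨dN, dN⟩`. -/
def Realises (K : ℝ) (Γ : Set (OnePoint ℂ)) (Ω : Set ℂ) (χ : ℂ → ℝ) : Prop :=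
  ∃ (C : Set Mink) (X N : ℂ → Mink) (j : ℂ → ℂ), KDomain K Γ C X N ∧
    ContDiffOn ℝ 3 j Ω ∧ InjOn j Ω ∧ j '' Ω = {z : ℂ | (z : OnePoint ℂ) ∈ Γ} ∧
    ∀ z ∈ Ω, ‖dzb j z‖ < ‖dz j z‖ ∧ ∀ v : ℂ,
      mip (fderiv ℝ N (j z) (fderiv ℝ j z v)) (fderiv ℝ N (j z) (fderiv ℝ j z v)) =
        Real.exp (2 * χ z) * ‖v‖ ^ 2

/-- `e^{2χ}|dz|²` is a complete metric of constant curvature `k` on the connected open set `Ω` -/
structure CompleteCurv (k : ℝ) (Ω : Set ℂ) (χ : ℂ → ℝ) : Prop where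
  isOpen : IsOpen Ω
  conn : IsConnected Ω
  smooth : ContDiffOn ℝ 4 χ Ω
  curv : ∀ z ∈ Ω, lap χ z = -k * Real.exp (2 * χ z)
  complete : ∀ γ : ℝ → ℂ, ContDiff ℝ 1 γ → (∀ t, γ t ∈ Ω) →
    (∃ B : ℝ, ∀ T : ℝ, ∫ t in (0 : ℝ)..T, Real.exp (χ (γ t)) * ‖deriv γ t‖ ≤ B) →
    ∃ p ∈ Ω, Tendsto γ atTop (𝓝 p)

/-- every closed geodesic of `e^{2χ}|dz|²` on `Ω` has length `> ℓ`, and every closed curve of length
`≤ ℓ` lies in a round disk inside `Ω` (so it is contractible in `Ω`). -/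
def LoopsLonger (ℓ : ℝ) (Ω : Set ℂ) (χ : ℂ → ℝ) : Prop :=
  (∀ (γ : ℝ → ℂ) (T : ℝ), ContDiff ℝ 2 γ → 0 < T → (∀ t, γ (t + T) = γ t) →
    (∀ t, γ t ∈ Ω) → (∀ t, deriv γ t ≠ 0) →
    (∀ t, deriv (deriv γ) t + 2 * dz (cx χ) (γ t) * (deriv γ t) ^ 2 = 0) →
    ℓ < ∫ t in (0 : ℝ)..T, Real.exp (χ (γ t)) * ‖deriv γ t‖) ∧
  (∀ (γ : ℝ → ℂ) (T : ℝ), ContDiff ℝ 1 γ → 0 < T → (∀ t, γ (t + T) = γ t) →
    (∀ t, γ t ∈ Ω) → ∫ t in (0 : ℝ)..T, Real.exp (χ (γ t)) * ‖deriv γ t‖ ≤ ℓ →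
    ∃ (p : ℂ) (r : ℝ), Metric.ball p r ⊆ Ω ∧ ∀ t, γ t ∈ Metric.ball p r)

/-- the final statement: the negated form of the problem, for every `K < 0` close to `0` -/
def FinalStatement : Prop :=
  ∃ K₀ : ℝ, -1 < K₀ ∧ K₀ < 0 ∧ ∀ K : ℝ, K₀ < K → K < 0 →
    ∃ (Ω : Set ℂ) (χ : ℂ → ℝ) (Γ₁ Γ₂ : Set (OnePoint ℂ)),
      CompleteCurv (K / (K + 1)) Ω χ ∧ LoopsLonger (2 * Real.pi) Ω χ ∧
      IsCircleDomain Γ₁ ∧ IsCircleDomain Γ₂ ∧
      Realises K Γ₁ Ω χ ∧ Realises K Γ₂ Ω χ ∧ ¬ MoebEquiv Γ₁ Γ₂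

end Pool.Agent.BB4B37
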