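import Pool.Agent.W_bb4b37_h5.Statement

/-!
# MP_bb4b37_gt: internal definitions shared by the modules (version 2: lattices, no symmetry)
-/

set_option autoImplicit false

namespace Pool.Agent.BB4B37

open Complex Filter Topology Set MeasureTheory

/-! ### sets -/

/-- the real linear map `z + τ z̄` -/
noncomputable def lin (τ z : ℂ) : ℂ := z + τ * (starRingEnd ℂ) z

/-- doubly periodic function (lattice `ℤ[i]`) -/
def Per {α : Type*} (f : ℂ → α) : Prop := ∀ z, f (z + 1) = f z ∧ f (z + I) = f z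

/-- `E` is invariant under the lattice `lin τ (ℤ[i])` -/
def LatSet (τ : ℂ) (E : Set ℂ) : Prop :=
  ∀ z, (z + lin τ 1 ∈ E ↔ z ∈ E) ∧ (z + lin τ I ∈ E ↔ z ∈ E)

/-- uniform perfectness at scales `≤ 1` -/
def UP (c : ℝ) (E : Set ℂ) : Prop :=
  ∀ p ∈ E, ∀ r : ℝ, 0 < r → r ≤ 1 → ∃ e ∈ E, c * r ≤ ‖e - p‖ ∧ ‖e - p‖ ≤ r

/-- admissible sets: closed, `1`-dense, uniformly perfect -/
structure Adm (c : ℝ) (E : Set ℂ) : Prop where
  closed : IsClosed E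
  nonempty : E.Nonempty
  near : ∀ z, Metric.infDist z E ≤ 1
  up : UP c E

/-- Hausdorff convergence (unbounded sets allowed) -/
def HausTo (E : ℕ → Set ℂ) (F : Set ℂ) : Prop :=
  ∀ ε : ℝ, 0 < ε → ∀ᶠ j in atTop, (∀ e ∈ E j, ∃ f ∈ F, ‖e - f‖ ≤ ε) ∧ (∀ f ∈ F, ∃ e ∈ E j, ‖e - f‖ ≤ ε)

/-- the half open unit square (fundamental domain) -/
def Qsq : Set ℂ := {z | 0 ≤ z.re ∧ z.re < 1 ∧ 0 ≤ z.im ∧ z.im < 1}

/-! ### the K-surface equation -/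

/-- `L = e^{-2φ} Δφ` -/
noncomputable def Lc (φ : ℂ → ℝ) (z : ℂ) : ℝ := Real.exp (-2 * φ z) * lap φ z

/-- `Q = 4 e^{-2φ} (φ_zz - φ_z²)` -/
noncomputable def Qc (φ : ℂ → ℝ) (z : ℂ) : ℂ :=
  4 * (Real.exp (-2 * φ z) : ℂ) * (dz (dz (cx φ)) z - (dz (cx φ) z) ^ 2)

/-- solutions of the K-surface equation `L = 1 + s² (L² - |Q|²)` on the complement of `E`,
of class `C^n`, with scale invariant bounds `M`. For `s = 0` this is the Liouville equation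
`Δφ = e^{2φ}` (complete metric of curvature `-1`). The values on `E` are irrelevant. -/
structure Sol (n : ℕ) (s M : ℝ) (E : Set ℂ) (φ : ℂ → ℝ) : Prop where
  smooth : ContDiffOn ℝ n φ Eᶜ
  size : ∀ z ∉ E, |φ z + Real.log (Metric.infDist z E)| ≤ M
  bound : ∀ z ∉ E, ∀ j : ℕ, 1 ≤ j → j ≤ n →
    ‖iteratedFDeriv ℝ j φ z‖ * Metric.infDist z E ^ j ≤ M
  eq : ∀ z ∉ E, Lc φ z = 1 + s ^ 2 * (Lc φ z ^ 2 - ‖Qc φ z‖ ^ 2)

/-- Beltrami coefficient of the conformal structure of the third fundamental form -/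
noncomputable def bet (s : ℝ) (φ : ℂ → ℝ) (z : ℂ) : ℂ :=
  -((s : ℂ) * (starRingEnd ℂ) (Qc φ z)) / (1 - (s : ℂ) * (Lc φ z : ℂ))

/-! ### quasiconformal maps of small dilatation -/

/-- smooth diffeomorphisms of the plane with `|u_z̄| ≤ k |u_z|` -/
structure IsDf (k : ℝ) (u : ℂ → ℂ) : Prop where
  smooth : ∀ n : ℕ, ContDiff ℝ n u
  bij : Function.Bijective u
  bel : ∀ z, ‖dzb u z‖ ≤ k * ‖dz u z‖
  nd : ∀ z, dz u z ≠ 0

/-- those that commute with `ℤ[i]` and fix `0` -/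
structure IsD (k : ℝ) (u : ℂ → ℂ) : Prop where
  df : IsDf k u
  zero : u 0 = 0
  one : ∀ z, u (z + 1) = u z + 1
  tau : ∀ z, u (z + I) = u z + I

/-- uniform limits of such maps -/
def IsQ (k : ℝ) (u : ℂ → ℂ) : Prop :=
  ∃ f : ℕ → ℂ → ℂ, (∀ n, IsD k (f n)) ∧ TendstoUniformly f u atTop

/-- Beltrami coefficient -/
noncomputable def bel (u : ℂ → ℂ) (z : ℂ) : ℂ := dzb u z / dz u z

/-- measurable `ℤ[i]`-periodic coefficients bounded by `k` -/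
structure BC (k : ℝ) (b : ℂ → ℂ) : Prop where
  meas : Measurable b
  per : Per b
  bound : ∀ z, ‖b z‖ ≤ k

/-- `lin β ∘ U` is the normalised solution of the Beltrami equation with the periodic coefficient
`b`: `U` is a uniform limit of smooth maps `f n` commuting with `ℤ[i]` such that the coefficients of
`lin (βn n) ∘ f n` tend to `b` in `L²` of the unit square and `βn → β`. -/
def TSol (k : ℝ) (b : ℂ → ℂ) (β : ℂ) (U : ℂ → ℂ) : Prop :=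
  ∃ (βn : ℕ → ℂ) (f : ℕ → ℂ → ℂ), (∀ n, IsD k (f n)) ∧ (∀ n, ‖βn n‖ ≤ k) ∧
    Tendsto βn atTop (𝓝 β) ∧ TendstoUniformly f U atTop ∧
    Tendsto (fun n => ∫ z in Qsq, ‖bel (fun x => lin (βn n) (f n x)) z - b z‖ ^ 2) atTop (𝓝 0)

/-- local notion of solution of the Beltrami equation `u_z̄ = b u_z`: uniform limit of smooth
diffeomorphisms whose coefficients tend to `b` in `L²` of every ball -/
def IsSol (k : ℝ) (b u : ℂ → ℂ) : Prop :=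
  ∃ f : ℕ → ℂ → ℂ, (∀ n, IsDf k (f n)) ∧ TendstoUniformly f u atTop ∧
    ∀ R : ℝ, Tendsto (fun n => ∫ z in Metric.ball (0 : ℂ) R, ‖bel (f n) z - b z‖ ^ 2) atTop (𝓝 0)

/-- data of a solution of `R(Γ') = Eᶜ`: `Γ'` is the complement of `w '' E`, the coefficient of
`u = w⁻¹` is `bet s φ` on `Γ'` and the constant `a` on `w '' E`. -/
structure FixData (n : ℕ) (s M k c A a : ℝ) (τ : ℂ) (E : Set ℂ) (b u w : ℂ → ℂ) (φ : ℂ → ℝ) :
    Prop where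
  meas : Measurable b
  bk : ∀ z, ‖b z‖ ≤ k
  sol : IsSol k b u
  wu : ∀ z, w (u z) = z
  uw : ∀ z, u (w z) = z
  contu : Continuous u
  contw : Continuous w
  adm : Adm c (w '' E)
  phi : Sol n s M (w '' E) φ
  inside : ∀ z ∈ w '' E, b z = a
  outside : ∀ z ∉ w '' E, b z = bet s φ z
  w_one : ∀ z, w (z + 1) = w z + lin τ 1
  w_tau : ∀ z, w (z + I) = w z + lin τ I
  close : ∀ z, ‖w z - lin τ z‖ ≤ A * (a + s)
  hw : ∀ x y, ‖x - y‖ ≤ 1 → ‖w x - w y‖ ≤ A * ‖x - y‖ ^ (7 / 8 : ℝ)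
  hu : ∀ x y, ‖x - y‖ ≤ 1 → ‖u x - u y‖ ≤ A * ‖x - y‖ ^ (7 / 8 : ℝ)
  tau_small : ‖τ‖ ≤ A * (a + s)

/-! ### the explicit K-surface of a solution -/

/-- the light cone vector of the horosphere at `z` for the metric `s⁻¹ e^{2φ} |dz|²` -/
noncomputable def LamP (s : ℝ) (φ : ℂ → ℝ) (z : ℂ) : Mink :=
  (Real.exp (φ z) / Real.sqrt s) • ((‖z‖ ^ 2, z, 1) : Mink)

/-- the opposite light cone vector, `4 √s e^{-φ} (|1 + z̄ p|², p (1 + z p̄), |p|²)` with `p = φ_z̄` -/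
noncomputable def LamM (s : ℝ) (φ : ℂ → ℝ) (z : ℂ) : Mink :=
  (4 * Real.sqrt s * Real.exp (-φ z)) •
    ((‖1 + (starRingEnd ℂ) z * dzb (cx φ) z‖ ^ 2,
      dzb (cx φ) z * (1 + z * (starRingEnd ℂ) (dzb (cx φ) z)), ‖dzb (cx φ) z‖ ^ 2) : Mink)

/-- the K-surface -/
noncomputable def Xs (s : ℝ) (φ : ℂ → ℝ) (z : ℂ) : Mink := (1 / 2 : ℝ) • (LamP s φ z + LamM s φ z)

/-- its unit normal -/
noncomputable def Ns (s : ℝ) (φ : ℂ → ℝ) (z : ℂ) : Mink := (1 / 2 : ℝ) • (LamP s φ z - LamM s φ z)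

/-- the convex domain -/
def Cs (s : ℝ) (φ : ℂ → ℝ) (E : Set ℂ) : Set Mink := {Y ∈ H3 | ∀ z ∉ E, mip Y (Ns s φ z) ≤ 0}

/-- the domain of the sphere with complement `E ∪ {∞}` -/
def Gam (E : Set ℂ) : Set (OnePoint ℂ) := (fun z : ℂ => (z : OnePoint ℂ)) '' Eᶜ

/-! ### the Cantor set -/

/-- the properties of the fat product Cantor set that are used -/
structure CantorProps (c : ℝ) (E : Set ℂ) : Prop where
  adm : Adm c E
  per : LatSet 0 E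
  pos : 0 < volume (E ∩ Qsq)
  td : IsTotallyDisconnected E
  conn : IsConnected Eᶜ
  stripRe : ∀ z ∈ E, ∀ m : ℤ, 1 / 16 ≤ |z.re - (m + 1 / 2)|
  stripIm : ∀ z ∈ E, ∀ m : ℤ, 1 / 16 ≤ |z.im - (m + 1 / 2)|
  denseRe : ∀ x : ℝ, |x| ≤ 7 / 16 → ∃ z ∈ E, |z.re - x| ≤ 1 / 64
  denseIm : ∀ x : ℝ, |x| ≤ 7 / 16 → ∃ z ∈ E, |z.im - x| ≤ 1 / 64
  holes : ∃ c' > 0, ∀ p ∈ E, ∀ r : ℝ, 0 < r → r ≤ 1 → ∃ z : ℂ, ‖z - p‖ ≤ r ∧
    c' * r ^ (11 / 10 : ℝ) ≤ Metric.infDist z E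

end Pool.Agent.BB4B37
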