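import Pool.Agent.W_bb4b37_h3.Geo2

/-! # Module GEO: from a solution of the equation to the K-surface -/

set_option autoImplicit false

namespace Pool.Agent.BB4B37

open Complex Filter Topology Set MeasureTheory

/-- the explicit surface bounds the convex domain `C_K(Γ)`, `K = -4s/(1+2s)` -/
theorem geo_domain (M : ℝ) : ∃ s₄ : ℝ, 0 < s₄ ∧ s₄ ≤ 1 / 4 ∧ ∀ E : Set ℂ, IsClosed E →
    E.Nonempty → (∀ z, Metric.infDist z E ≤ 1) → interior E = ∅ → ∀ s : ℝ, 0 < s → s ≤ s₄ →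
    ∀ φ : ℂ → ℝ, Sol 6 s M E φ →
      KDomain (-(4 * s) / (1 + 2 * s)) (Gam E) (Cs s φ E) (Xs s φ) (Ns s φ) :=
  geo_domain' M

/-- the third fundamental form -/
theorem geo_III (s : ℝ) (hs : 0 < s) (φ : ℂ → ℝ) (z : ℂ) (hφ : ContDiffAt ℝ 3 φ z) (v : ℂ) :
    mip (fderiv ℝ (Ns s φ) z v) (fderiv ℝ (Ns s φ) z v) =
      Real.exp (2 * φ z) / (4 * s) *
        ‖(1 - (s : ℂ) * (Lc φ z : ℂ)) * v - (s : ℂ) * (starRingEnd ℂ) (Qc φ z) *
          (starRingEnd ℂ) v‖ ^ 2 :=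
  geo_III' hs (hφ.of_le (by norm_num)) v

end Pool.Agent.BB4B37
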