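import Pool.Agent.W_bb4b37_h5.Defs

/-! # Module REG: local regularity of solutions of the Beltrami equation -/

set_option autoImplicit false

namespace Pool.Agent.BB4B37

open Complex Filter Topology Set MeasureTheory

/-- if the coefficient is `C⁴` with small scale invariant norm on a disk then `u` is a `C³` local
diffeomorphism with this coefficient on a smaller disk, and is holomorphic in a coordinate that is
comparable to `z`. -/
theorem reg_local : ∃ k₀ κ₀ ρ : ℝ, 0 < k₀ ∧ 0 < κ₀ ∧ 0 < ρ ∧ ρ < 1 ∧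
    ∀ (b u : ℂ → ℂ) (z₀ : ℂ) (r : ℝ), Measurable b → (∀ z, ‖b z‖ ≤ k₀) → IsSol k₀ b u →
    Function.Injective u → 0 < r → ContDiffOn ℝ 4 b (Metric.ball z₀ r) →
    (∀ z ∈ Metric.ball z₀ r, ∀ j : ℕ, j ≤ 4 → ‖iteratedFDeriv ℝ j b z‖ * r ^ j ≤ κ₀) →
    ContDiffOn ℝ 3 u (Metric.ball z₀ (ρ * r)) ∧
    (∀ z ∈ Metric.ball z₀ (ρ * r), dzb u z = b z * dz u z ∧ dz u z ≠ 0) ∧
    ∃ f : ℂ → ℂ, DifferentiableOn ℂ f (Metric.ball 0 (ρ * r)) ∧
      MapsTo f (Metric.ball 0 (ρ * r)) (u '' Metric.ball z₀ r) ∧ f 0 = u z₀ ∧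
      ‖dz u z₀‖ ≤ 2 * ‖deriv f 0‖ := by
  sorry

end Pool.Agent.BB4B37
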