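import Pool.Agent.W_bb4b37_h5.PDE
import Pool.Agent.W_bb4b37_h5.REG

/-! # Module ISO: the third fundamental form of `S_K(Γ')` is the complete metric of `Eᶜ` -/

set_option autoImplicit false

namespace Pool.Agent.BB4B37

open Complex Filter Topology Set MeasureTheory

theorem iso_main (M c : ℝ) (hc : 0 < c) : ∃ s₅ k₂ : ℝ, 0 < s₅ ∧ 0 < k₂ ∧ s₅ ≤ 1 / 4 ∧
    ∀ E : Set ℂ, Adm c E → ∀ φ₀ : ℂ → ℝ, Sol 6 0 M E φ₀ → ∀ s : ℝ, 0 < s → s ≤ s₅ →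
    ∀ (b u w : ℂ → ℂ) (φ : ℂ → ℝ), Measurable b → (∀ z, ‖b z‖ ≤ k₂) → IsSol k₂ b u →
    (∀ z, w (u z) = z) → (∀ z, u (w z) = z) → Continuous u → Continuous w →
    Adm c (w '' E) → Sol 6 s M (w '' E) φ → (∀ z ∉ w '' E, b z = bet s φ z) →
      ContDiffOn ℝ 3 w Eᶜ ∧
      ∀ z ∉ E, ‖dzb w z‖ < ‖dz w z‖ ∧ ∀ v : ℂ,
        Real.exp (2 * φ (w z)) / (4 * s) *
          ‖(1 - (s : ℂ) * (Lc φ (w z) : ℂ)) * fderiv ℝ w z v -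
            (s : ℂ) * (starRingEnd ℂ) (Qc φ (w z)) * (starRingEnd ℂ) (fderiv ℝ w z v)‖ ^ 2 =
        (1 - 2 * s) / (4 * s) * Real.exp (2 * φ₀ z) * ‖v‖ ^ 2 := by
  sorry

/-- completeness and long loops -/
theorem complete_loops (M : ℝ) : ∃ s₆ : ℝ, 0 < s₆ ∧ s₆ ≤ 1 / 4 ∧ ∀ E : Set ℂ, IsClosed E →
    E.Nonempty → (∀ z, Metric.infDist z E ≤ 1) → IsConnected Eᶜ → ∀ φ₀ : ℂ → ℝ,
    Sol 4 0 M E φ₀ → ∀ s : ℝ, 0 < s → s ≤ s₆ →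
      CompleteCurv (-(4 * s) / (1 - 2 * s)) Eᶜ
        (fun z => φ₀ z + Real.log ((1 - 2 * s) / (4 * s)) / 2) ∧
      LoopsLonger (2 * Real.pi) Eᶜ (fun z => φ₀ z + Real.log ((1 - 2 * s) / (4 * s)) / 2) := by
  sorry

end Pool.Agent.BB4B37
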