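import Pool.Agent.W_bb4b37_h5.Defs

/-! # Module NONEQ: the two circle domains are not Moebius equivalent -/

set_option autoImplicit false

namespace Pool.Agent.BB4B37

open Complex Filter Topology Set MeasureTheory

/-- different lattices give non-equivalent domains -/
theorem ne_main (c A : ℝ) (E : Set ℂ) (hE : CantorProps c E) (τ₁ τ₂ : ℂ) (w₁ u₁ w₂ u₂ : ℂ → ℂ)
    (h11 : ∀ z, w₁ (u₁ z) = z) (h12 : ∀ z, u₁ (w₁ z) = z)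
    (h21 : ∀ z, w₂ (u₂ z) = z) (h22 : ∀ z, u₂ (w₂ z) = z)
    (hc1 : Continuous w₁) (hc2 : Continuous w₂) (hd1 : Continuous u₁) (hd2 : Continuous u₂)
    (p11 : ∀ z, w₁ (z + 1) = w₁ z + lin τ₁ 1) (p12 : ∀ z, w₁ (z + I) = w₁ z + lin τ₁ I)
    (p21 : ∀ z, w₂ (z + 1) = w₂ z + lin τ₂ 1) (p22 : ∀ z, w₂ (z + I) = w₂ z + lin τ₂ I)
    (t1 : ‖τ₁‖ ≤ 1 / 10) (t2 : ‖τ₂‖ ≤ 1 / 10)
    (cl1 : ∀ z, ‖w₁ z - lin τ₁ z‖ ≤ 1 / 200) (cl2 : ∀ z, ‖w₂ z - lin τ₂ z‖ ≤ 1 / 200)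
    (hw : ∀ x y, ‖x - y‖ ≤ 1 → ‖w₂ x - w₂ y‖ ≤ A * ‖x - y‖ ^ (7 / 8 : ℝ))
    (hu : ∀ x y, ‖x - y‖ ≤ 1 → ‖u₂ x - u₂ y‖ ≤ A * ‖x - y‖ ^ (7 / 8 : ℝ))
    (shape : (1 + ‖τ₂‖ ^ 2 - 2 * |τ₂.re|) * (1 - ‖τ₁‖ ^ 2) < (1 - ‖τ₁‖) ^ 2 * (1 - ‖τ₂‖ ^ 2)) :
    ¬ MoebEquiv (Gam (w₁ '' E)) (Gam (w₂ '' E)) := by
  sorry

/-- images of the Cantor set give circle domains -/
theorem circle_dom (c : ℝ) (E : Set ℂ) (hE : CantorProps c E) (w u : ℂ → ℂ) (hw : Continuous w)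
    (hu : Continuous u) (hwu : ∀ z, w (u z) = z) (huw : ∀ z, u (w z) = z) :
    IsCircleDomain (Gam (w '' E)) := by
  sorry

end Pool.Agent.BB4B37
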