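import Pool.Agent.W_bb4b37_h5.FIX
import Pool.Agent.W_bb4b37_h5.CANTOR
import Pool.Agent.W_bb4b37_h5.NONEQ
import Pool.Agent.W_bb4b37_h5.GEO
import Pool.Agent.W_bb4b37_h5.ISO

/-! # Assembly -/

set_option autoImplicit false

namespace Pool.Agent.BB4B37

open Complex Filter Topology Set MeasureTheory

theorem final : FinalStatement := by
  sorry

end Pool.Agent.BB4B37
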