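import Pool.Agent.W_bb4b37_h5.Defs

/-! # Module QC: quasiconformal maps of small dilatation on the torus -/

set_option autoImplicit false

namespace Pool.Agent.BB4B37

open Complex Filter Topology Set MeasureTheory

/-- sup distance to the identity, Hoelder bound, equivariance, inverse -/
theorem qc_basic : ∃ k₀ C : ℝ, 0 < k₀ ∧ 0 < C ∧ ∀ k : ℝ, 0 ≤ k → k ≤ k₀ → ∀ u : ℂ → ℂ, IsQ k u →
    (∀ z, ‖u z - z‖ ≤ C * k) ∧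
    (∀ z w, ‖z - w‖ ≤ 1 → ‖u z - u w‖ ≤ C * ‖z - w‖ ^ (7 / 8 : ℝ)) ∧
    u 0 = 0 ∧ (∀ z, u (z + 1) = u z + 1) ∧ (∀ z, u (z + I) = u z + I) ∧
    ∃ w : ℂ → ℂ, IsQ k w ∧ (∀ z, w (u z) = z) ∧ (∀ z, u (w z) = z) := by
  sorry

/-- inverses depend continuously -/
theorem qc_inv_tendsto : ∃ k₀ : ℝ, 0 < k₀ ∧ ∀ (u w : ℕ → ℂ → ℂ) (u' w' : ℂ → ℂ),
    (∀ n, IsQ k₀ (u n)) → IsQ k₀ u' → (∀ n z, w n (u n z) = z) → (∀ n z, u n (w n z) = z) →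
    (∀ z, w' (u' z) = z) → (∀ z, u' (w' z) = z) → TendstoUniformly u u' atTop →
    TendstoUniformly w w' atTop := by
  sorry

/-- compactness -/
theorem qc_compact : ∃ k₀ : ℝ, 0 < k₀ ∧ ∀ k : ℝ, 0 ≤ k → k ≤ k₀ → ∀ u : ℕ → ℂ → ℂ,
    (∀ n, IsQ k (u n)) → ∃ u' : ℂ → ℂ, IsQ k u' ∧ ∃ θ : ℕ → ℕ, StrictMono θ ∧
      TendstoUniformly (fun n => u (θ n)) u' atTop := by
  sorry

/-- uniform absolute continuity of area -/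
theorem qc_area : ∃ k₀ C : ℝ, 0 < k₀ ∧ 0 < C ∧ ∀ u : ℂ → ℂ, IsQ k₀ u → ∀ A : Set ℂ,
    MeasurableSet A → LatSet 0 A →
    (volume (u '' A ∩ Qsq)).toReal ≤ C * (volume (A ∩ Qsq)).toReal ^ (7 / 8 : ℝ) := by
  sorry

/-- continuity of the area of images of closed periodic sets -/
theorem qc_vol : ∃ k₀ : ℝ, 0 < k₀ ∧ ∀ (w : ℕ → ℂ → ℂ) (w' : ℂ → ℂ), (∀ n, IsQ k₀ (w n)) →
    IsQ k₀ w' → TendstoUniformly w w' atTop → ∀ E : Set ℂ, IsClosed E → LatSet 0 E →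
    Tendsto (fun n => (volume (w n '' E ∩ Qsq)).toReal) atTop
      (𝓝 (volume (w' '' E ∩ Qsq)).toReal) := by
  sorry

/-- invariance of uniform perfectness -/
theorem qc_up : ∃ k₀ : ℝ, 0 < k₀ ∧ ∀ c : ℝ, 0 < c → ∃ c' : ℝ, 0 < c' ∧ ∀ E : Set ℂ, Adm c E →
    LatSet 0 E → ∀ w : ℂ → ℂ, IsQ k₀ w → Adm c' (w '' E) := by
  sorry

/-- existence of the normalised solution -/
theorem qc_exists : ∃ k₀ C : ℝ, 0 < k₀ ∧ 0 < C ∧ ∀ k : ℝ, 0 ≤ k → k ≤ k₀ → ∀ b : ℂ → ℂ, BC k b →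
    ∃ (β : ℂ) (U : ℂ → ℂ), TSol (4 * k) b β U ∧ ‖β‖ ≤ 2 * k ∧
      ‖β - ∫ z in Qsq, b z‖ ≤ C * k ^ 2 := by
  sorry

/-- continuous dependence on the coefficient in `L²` (uniqueness is the constant case) -/
theorem qc_cont : ∃ k₀ : ℝ, 0 < k₀ ∧ ∀ (b : ℕ → ℂ → ℂ) (b' : ℂ → ℂ) (β : ℕ → ℂ) (β' : ℂ)
    (U : ℕ → ℂ → ℂ) (U' : ℂ → ℂ), (∀ n, BC k₀ (b n)) → BC k₀ b' →
    (∀ n, TSol (4 * k₀) (b n) (β n) (U n)) → TSol (4 * k₀) b' β' U' →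
    Tendsto (fun n => ∫ z in Qsq, ‖b n z - b' z‖ ^ 2) atTop (𝓝 0) →
    Tendsto β atTop (𝓝 β') ∧ TendstoUniformly U U' atTop := by
  sorry

end Pool.Agent.BB4B37
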