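import Pool.Agent.W_bb4b37_h5.PDE
import Pool.Agent.W_bb4b37_h5.QC

/-! # Module FIX: the fixed point -/

set_option autoImplicit false

namespace Pool.Agent.BB4B37

open Complex Filter Topology Set MeasureTheory

/-- for every admissible periodic `E` and small `a ≥ 0`, `s > 0` there is a domain `Γ'` whose third
fundamental form has the conformal structure of `Eᶜ` and such that the uniformising map has
coefficient `a` on the complement; the lattice of `Γ'` is `lin τ (ℤ[i])` with `τ` close to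
`- a |E'|`. -/
theorem FIX (n : ℕ) (c : ℝ) (hc : 0 < c) : ∃ M c' s₂ a₀ A : ℝ, 0 < M ∧ 0 < c' ∧ 0 < s₂ ∧ 0 < a₀ ∧
    0 < A ∧ ∀ E : Set ℂ, Adm c E → LatSet 0 E → ∀ a s : ℝ, 0 ≤ a → a ≤ a₀ → 0 < s → s ≤ s₂ →
    ∃ (τ : ℂ) (b u w : ℂ → ℂ) (φ : ℂ → ℝ), FixData n s M (A * (a + s)) c' A a τ E b u w φ ∧
      ∃ v : ℝ, (volume (E ∩ Qsq)).toReal ≤ A * v ^ (7 / 8 : ℝ) ∧ 0 ≤ v ∧ v ≤ 1 ∧
        ‖τ + a * v‖ ≤ A * (s + (a + s) ^ 2) := by
  sorry

end Pool.Agent.BB4B37
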