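import Pool.Agent.W_bb4b37_h5.P.Uniq
import Pool.Agent.W_bb4b37_h5.P.Lim

/-! # Module PDE: the K-surface equation (existence, uniqueness, continuity) -/

set_option autoImplicit false

namespace Pool.Agent.BB4B37

open Complex Filter Topology Set MeasureTheory

/-- existence with uniform bounds -/
theorem EX (n : ℕ) (c : ℝ) (hc : 0 < c) : ∃ M s₀ : ℝ, 0 < M ∧ 0 < s₀ ∧ ∀ E : Set ℂ, Adm c E →
    ∀ s : ℝ, 0 ≤ s → s ≤ s₀ → ∃ φ : ℂ → ℝ, Sol n s M E φ := EX_lim n c hc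

/-- uniqueness -/
theorem UN (M : ℝ) : ∃ s₁ : ℝ, 0 < s₁ ∧ ∀ E : Set ℂ, IsClosed E → E.Nonempty →
    (∀ z, Metric.infDist z E ≤ 1) → ∀ s : ℝ, 0 ≤ s → s ≤ s₁ → ∀ φ₁ φ₂ : ℂ → ℝ,
    Sol 2 s M E φ₁ → Sol 2 s M E φ₂ → ∀ z ∉ E, φ₁ z = φ₂ z := UN_main M

/-- continuous dependence on the set -/
theorem CONT (M : ℝ) : ∃ s₁ : ℝ, 0 < s₁ ∧ ∀ (E : ℕ → Set ℂ) (F : Set ℂ),
    (∀ j, IsClosed (E j) ∧ (E j).Nonempty ∧ ∀ z, Metric.infDist z (E j) ≤ 1) →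
    IsClosed F → F.Nonempty → (∀ z, Metric.infDist z F ≤ 1) →
    HausTo E F → ∀ s : ℝ, 0 ≤ s → s ≤ s₁ → ∀ (φ : ℕ → ℂ → ℝ) (ψ : ℂ → ℝ),
      (∀ j, Sol 3 s M (E j) (φ j)) → Sol 3 s M F ψ → ∀ z ∉ F,
        Tendsto (fun j => Lc (φ j) z) atTop (𝓝 (Lc ψ z)) ∧
        Tendsto (fun j => Qc (φ j) z) atTop (𝓝 (Qc ψ z)) := CONT_main M

end Pool.Agent.BB4B37
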